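import Pool.Agent.H881.SH.WiMA
import Pool.Agent.H121.SH.Iface
import Pool.Agent.H155.GA.RuA
import Pool.Agent.H870.GA.RuB

/-! SH-WIM (project SH of helper121): `wiM : S_wiM`. -/

set_option autoImplicit false

open scoped BigOperators InnerProductSpace Topology ENNReal ComplexConjugate
open Filter MeasureTheory

namespace Pool.Agent.H881.SH

open Pool.Agent.Y662.TR (LL dv inner_dv ll_sum ll_summable)
open Pool.Agent.TH369.MU (ep zk)
open Pool.Agent.TH794.LL2 (Po)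
open Pool.Agent.H987.Z (Rs)
open Pool.Agent.H121.ME (Qw)
open Pool.Agent.H121.GA
open Pool.Agent.H253.ME (Wc Po_Qw watoms wdiff_lim)
open Pool.Agent.H717.Z987 (kp kp_ne Fm Fm_le Fm_meas ep_pos' ep_lim fin_atoms Fm_atom)

/-- the limit of the averaged second moment of the Green function -/
theorem lim_gr {w : ℝ → ℝ} (hw : Wc w) {ι : Type} {R : ℂ → LL ι →L[ℂ] LL ι} (hR : Rf R) (x y : ι)
    (mp mn : Measure ℝ) (hp : SpR R (dv x + dv y) mp) (hn : SpR R (dv x - dv y) mn)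
    (D : Set ℝ) (hD : D.Countable) (hpD : ∀ t, t ∉ D → mp {t} = 0) (hnD : ∀ t, t ∉ D → mn {t} = 0) :
    Tendsto (fun k => ∫⁻ E, ENNReal.ofReal (ep k * ‖R (zk E k) (dv y) x‖ ^ 2) ∂(Qw w)) atTop
      (𝓝 (ENNReal.ofReal (1 / 16 * (Real.pi * ∑' t : D, w t *
        (mp.real {(t : ℝ)} - mn.real {(t : ℝ)}) ^ 2)))) := by
  have := hp.1
  have := hn.1
  obtain ⟨m, hm, -⟩ := hR.sp (dv y)
  have := hm.1
  have e := (wdiff_lim hw mp mn D hD hpD hnD).const_mul (1 / 16)
  have e2 : Tendsto (fun k => ∫ E, ep k * ‖R (zk E k) (dv y) x‖ ^ 2 ∂(Qw w)) atTop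
      (𝓝 (1 / 16 * (Real.pi * ∑' t : D, w t *
        (mp.real {(t : ℝ)} - mn.real {(t : ℝ)}) ^ 2))) := by
    refine e.congr fun k => ?_
    rw [← integral_const_mul]
    refine integral_congr_ae (Eventually.of_forall fun E => ?_)
    simp only
    rw [← Pool.Agent.H253.GA.pol hR x y mp mn hp hn E k, norm_mul]
    norm_num
    ring
  refine ((ENNReal.continuous_ofReal.tendsto _).comp e2).congr fun k => ?_
  have hnn : ∀ x E, 0 ≤ ep k * ‖R (zk E k) (dv y) x‖ ^ 2 :=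
    fun x E => mul_nonneg (ep_pos' k).le (sq_nonneg _)
  have hPint := (Po_Qw hw m).1 k
  have hle : ∀ x E, ep k * ‖R (zk E k) (dv y) x‖ ^ 2 ≤ Po m E (ep k) := by
    intro x E
    have := sum_le_hasSum {x} (fun x _ => hnn x E) (Pool.Agent.H253.GA.gr_sum hR y m hm E k)
    simpa using this
  have hint : Integrable (fun E => ep k * ‖R (zk E k) (dv y) x‖ ^ 2) (Qw w) := by
    refine hPint.mono' (Pool.Agent.H253.GA.gr_meas hR x y k).aestronglyMeasurable
      (Eventually.of_forall fun E => ?_)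
    rw [Real.norm_of_nonneg (hnn x E)]
    exact hle x E
  exact ofReal_integral_eq_lintegral_ofReal hint (Eventually.of_forall fun E => hnn x E)

/-- **SH-WIM** -/
theorem wiM : Pool.Agent.H121.SH.S_wiM := by
  intro w hc h0 hwt ι _ T hT V x y n e u hu hu1 hinj hs
  have hA : S_ruA := Pool.Agent.H155.GA.ruA
  have hR : Rf (RU T V) := Pool.Agent.H870.GA.ruB hA ι T hT V
  have hw : Wc w := ⟨hc, h0, hwt⟩
  obtain ⟨mp, hp, -⟩ := hR.sp (dv x + dv y)
  obtain ⟨mn, hn, -⟩ := hR.sp (dv x - dv y)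
  have := hp.1
  have := hn.1
  obtain ⟨D, hDdef⟩ : ∃ D : Set ℝ, D = ({t | mp {t} ≠ 0} ∪ {t | mn {t} ≠ 0}) ∪ Set.range e :=
    ⟨_, rfl⟩
  have hD : D.Countable := by
    rw [hDdef]
    exact ((fin_atoms mp).union (fin_atoms mn)).union (Set.countable_range e)
  have hpD : ∀ t, t ∉ D → mp {t} = 0 := by
    intro t ht
    by_contra h
    exact ht (by rw [hDdef]; exact Or.inl (Or.inl h))
  have hnD : ∀ t, t ∉ D → mn {t} = 0 := by
    intro t ht
    by_contra h
    exact ht (by rw [hDdef]; exact Or.inl (Or.inr h))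
  have heD : ∀ j, e j ∈ D := by
    intro j
    rw [hDdef]
    exact Or.inr ⟨j, rfl⟩
  have hlim := lim_gr hw hR x y mp mn hp hn D hD hpD hnD
  have hgoal : liminf (fun k => ∫⁻ E, ENNReal.ofReal (ep k * ‖GU T V (zk E k) x y‖ ^ 2) ∂(Qw w))
      atTop = ENNReal.ofReal (1 / 16 * (Real.pi * ∑' t : D, w t *
        (mp.real {(t : ℝ)} - mn.real {(t : ℝ)}) ^ 2)) := hlim.liminf_eq
  rw [hgoal, ← ENNReal.ofReal_sum_of_nonneg fun j _ =>
    mul_nonneg (mul_nonneg Real.pi_pos.le (h0 _)) (by positivity)]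
  refine ENNReal.ofReal_le_ofReal ?_
  -- the weights
  have hval : ∀ j, Real.pi * w (e j) * (‖u j x‖ ^ 2 * ‖u j y‖ ^ 2) =
      1 / 16 * (Real.pi * (w (e j) * (mp.real {e j} - mn.real {e j}) ^ 2)) := by
    intro j
    have h1 := mass_eq hA T hT V hR x y mp mn hp hn (e j) (u j) (hu j) (hu1 j) (hs j)
    have h2 := congrArg (fun z : ℂ => ‖z‖ ^ 2) h1
    simp only [Complex.norm_real, Real.norm_eq_abs, sq_abs, norm_mul, RCLike.norm_conj] at h2
    have h3 : ‖u j x‖ ^ 2 * ‖u j y‖ ^ 2 = ((mp.real {e j} - mn.real {e j}) / 4) ^ 2 := by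
      rw [h2]; ring
    rw [h3]
    ring
  simp_rw [hval]
  rw [← Finset.mul_sum, ← Finset.mul_sum]
  refine mul_le_mul_of_nonneg_left (mul_le_mul_of_nonneg_left ?_ Real.pi_pos.le) (by norm_num)
  have hsum : Summable fun t : D => w t * (mp.real {(t : ℝ)} - mn.real {(t : ℝ)}) ^ 2 := by
    have s1 := watoms hw mp mp D hD
    have s2 := watoms hw mp mn D hD
    have s4 := watoms hw mn mn D hD
    refine ((s1.sub (s2.mul_left 2)).add s4).congr fun t => ?_
    ring
  have hinj2 : Function.Injective (fun j : Fin n => (⟨e j, heD j⟩ : D)) := by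
    intro a b hab
    exact hinj (Subtype.ext_iff.1 hab)
  have h1 := hsum.sum_le_tsum (Finset.univ.map ⟨_, hinj2⟩)
    (fun t _ => mul_nonneg (h0 _) (sq_nonneg _))
  rw [Finset.sum_map] at h1
  exact h1

end Pool.Agent.H881.SH
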