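import Pool.Agent.H253.GA.WienR
import Pool.Agent.H722.GA.Atom

/-! SH-WIM (project SH of helper121), first part: the weight of a simple eigenvalue in the spectral measure of
a resolvent family. -/

set_option autoImplicit false

open scoped BigOperators InnerProductSpace Topology ENNReal ComplexConjugate
open Filter MeasureTheory

namespace Pool.Agent.H881.SH

open Pool.Agent.Y662.TR (LL dv inner_dv ll_sum ll_summable)
open Pool.Agent.TH369.MU (ep zk)
open Pool.Agent.TH794.LL2 (Po)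
open Pool.Agent.H987.Z (Rs)
open Pool.Agent.H121.ME (Qw)
open Pool.Agent.H121.GA
open Pool.Agent.H253.ME (Wc Po_Qw watoms wdiff_lim)
open Pool.Agent.H717.Z987 (kp kp_ne Fm Fm_le Fm_meas ep_pos' ep_lim fin_atoms Fm_atom)
open Pool.Agent.H722.GA (uu cc gram_bd)

/-- the approximate eigenvectors form a Cauchy sequence -/
theorem uu_cau {ι : Type} (R : ℂ → LL ι →L[ℂ] LL ι) (hR : Rf R) (f : LL ι) (t : ℝ) :
    CauchySeq (uu R f t) := by
  obtain ⟨m, hm, -⟩ := hR.sp f
  have := hm.1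
  set μ : ℝ := m.real {t} with hμ
  have hc : Tendsto (fun k => ‖cc m t k - (μ : ℂ)‖) atTop (𝓝 0) := by
    have := (Fm_atom m t).sub_const (μ : ℂ)
    rw [sub_self] at this
    have := this.norm
    rwa [norm_zero] at this
  have hb := fun k l => gram_bd R hR f m hm t k l
  rw [← hμ] at hb
  have hsq : ∀ k l, ‖uu R f t k - uu R f t l‖ ^ 2 ≤
      4 * (‖cc m t k - (μ : ℂ)‖ + ‖cc m t l - (μ : ℂ)‖) := by
    intro k l
    have h1 := @norm_sub_sq ℂ _ _ _ _ (uu R f t k) (uu R f t l)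
    have hkk := hb k k
    have hll := hb l l
    have hkl := hb k l
    have r1 := (Complex.abs_re_le_norm _).trans hkk
    have r2 := (Complex.abs_re_le_norm _).trans hll
    have r3 := (Complex.abs_re_le_norm _).trans hkl
    rw [Complex.sub_re, Complex.ofReal_re] at r1 r2 r3
    have n1 : (⟪uu R f t k, uu R f t k⟫_ℂ).re = ‖uu R f t k‖ ^ 2 :=
      inner_self_eq_norm_sq (𝕜 := ℂ) (uu R f t k)
    have n2 : (⟪uu R f t l, uu R f t l⟫_ℂ).re = ‖uu R f t l‖ ^ 2 :=
      inner_self_eq_norm_sq (𝕜 := ℂ) (uu R f t l)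
    rw [n1] at r1
    rw [n2] at r2
    have h2 : RCLike.re ⟪uu R f t k, uu R f t l⟫_ℂ = (⟪uu R f t k, uu R f t l⟫_ℂ).re := rfl
    rw [h2] at h1
    rw [abs_le] at r1 r2 r3
    rw [h1]
    linarith [r1.1, r1.2, r2.1, r2.2, r3.1, r3.2]
  rw [Metric.cauchySeq_iff]
  intro ε hε
  have h1 : ∀ᶠ k in atTop, ‖cc m t k - (μ : ℂ)‖ < ε ^ 2 / 8 :=
    hc.eventually_lt_const (by positivity)
  obtain ⟨N, hN⟩ := eventually_atTop.1 h1
  refine ⟨N, fun k hk l hl => ?_⟩
  rw [dist_eq_norm]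
  have h2 := hsq k l
  have h3 := hN k hk
  have h4 := hN l hl
  refine lt_of_pow_lt_pow_left₀ 2 hε.le ?_
  linarith

/-- their limit is an eigenvector (or zero) -/
theorem uu_eig (hA : S_ruA) {ι : Type} (T : LL ι →L[ℂ] LL ι) (hT : Rs T) (V : ι → ℝ) (f : LL ι)
    (t : ℝ) (u : LL ι) (hu : Tendsto (uu (RU T V) f t) atTop (𝓝 u)) (x : ι) :
    T u x + ((V x : ℝ) : ℂ) * u x = (t : ℂ) * u x := by
  have hev : Continuous (fun v : LL ι => (v : ι → ℂ) x) := by
    have := (continuous_apply x).comp (lp.uniformContinuous_coe (E := fun _ : ι => ℂ)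
      (p := 2)).continuous
    exact this
  have h1 : ∀ k, T (uu (RU T V) f t k) x + ((V x : ℝ) : ℂ) * uu (RU T V) f t k x =
      zk t k * uu (RU T V) f t k x + (-(Complex.I * (ep k : ℂ))) * f x := by
    intro k
    have h2 := (hA ι T hT V (zk t k) (Pool.Agent.H722.GA.zk_im t k)).2.2.1 f x
    unfold uu
    rw [map_smul]
    simp only [lp.coeFn_smul, Pi.smul_apply, smul_eq_mul]
    rw [← h2]
    ring
  have l1 : Tendsto (fun k => T (uu (RU T V) f t k) x + ((V x : ℝ) : ℂ) * uu (RU T V) f t k x) atTop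
      (𝓝 (T u x + ((V x : ℝ) : ℂ) * u x)) :=
    ((hev.tendsto _).comp ((T.continuous.tendsto _).comp hu)).add
      (((hev.tendsto _).comp hu).const_mul _)
  have hep : Tendsto (fun k => (ep k : ℂ)) atTop (𝓝 0) := by
    have := (Complex.continuous_ofReal.tendsto _).comp ep_lim
    rwa [Complex.ofReal_zero] at this
  have l2 : Tendsto (fun k => zk t k * uu (RU T V) f t k x + (-(Complex.I * (ep k : ℂ))) * f x) atTop
      (𝓝 (((t : ℂ) + 0 * Complex.I) * u x + (-(Complex.I * 0)) * f x)) := by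
    refine Tendsto.add (Tendsto.mul ?_ ((hev.tendsto _).comp hu)) (Tendsto.mul_const _ ?_)
    · exact (hep.mul_const _).const_add _
    · exact (hep.const_mul _).neg
  have h3 := tendsto_nhds_unique (l1.congr h1) l2
  rw [h3]
  ring

/-- the component of the approximate eigenvectors along an eigenvector -/
theorem uu_inner (hA : S_ruA) {ι : Type} (T : LL ι →L[ℂ] LL ι) (hT : Rs T) (V : ι → ℝ)
    (hR : Rf (RU T V)) (f : LL ι) (t : ℝ) (u : LL ι)
    (hu : ∀ p, T u p + ((V p : ℝ) : ℂ) * u p = ((t : ℝ) : ℂ) * u p) (k : ℕ) :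
    ⟪u, uu (RU T V) f t k⟫_ℂ = ⟪u, f⟫_ℂ := by
  have hk := Pool.Agent.H722.GA.zk_im t k
  have hk' : (conj (zk t k)).im ≠ 0 := by rw [Complex.conj_im]; exact neg_ne_zero.2 hk
  have he : (ep k : ℂ) ≠ 0 := by exact_mod_cast (ep_pos' k).ne'
  have hI : Complex.I ≠ 0 := Complex.I_ne_zero
  have h1 : (Complex.I * (ep k : ℂ))⁻¹ • u = RU T V (conj (zk t k)) u := by
    refine (hA ι T hT V (conj (zk t k)) hk').2.2.2 u _ fun p => ?_
    have h2 := hu p
    rw [map_smul]
    simp only [lp.coeFn_smul, Pi.smul_apply, smul_eq_mul]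
    have h3 : conj (zk t k) = (t : ℂ) - Complex.I * (ep k : ℂ) := by
      simp only [zk, map_add, map_mul, Complex.conj_ofReal, Complex.conj_I]
      ring
    rw [h3]
    have h4 : T u p = (t : ℂ) * u p - ((V p : ℝ) : ℂ) * u p := by
      rw [← h2]; ring
    rw [h4]
    field_simp
    ring
  have h5 := hR.ad (conj (zk t k)) hk' u f
  rw [Complex.conj_conj, ← h1, inner_smul_left] at h5
  unfold uu
  rw [inner_smul_right, ← h5, map_inv₀, map_mul, Complex.conj_I, Complex.conj_ofReal]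
  field_simp

/-- the weight of a simple eigenvalue -/
theorem mass_eq (hA : S_ruA) {ι : Type} (T : LL ι →L[ℂ] LL ι) (hT : Rs T) (V : ι → ℝ)
    (hR : Rf (RU T V)) (x y : ι) (mp mn : Measure ℝ)
    (hp : SpR (RU T V) (dv x + dv y) mp) (hn : SpR (RU T V) (dv x - dv y) mn) (t : ℝ) (u : LL ι)
    (hu : ∀ p, T u p + ((V p : ℝ) : ℂ) * u p = ((t : ℝ) : ℂ) * u p) (hu1 : ‖u‖ = 1)
    (hs : ∀ v : LL ι, (∀ p, T v p + ((V p : ℝ) : ℂ) * v p = ((t : ℝ) : ℂ) * v p) →
      ∃ a : ℂ, v = a • u) :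
    (((mp.real {t} - mn.real {t}) / 4 : ℝ) : ℂ) = conj (u y) * u x := by
  have := hp.1
  have := hn.1
  obtain ⟨v, hv⟩ := cauchySeq_tendsto_of_complete (uu_cau (RU T V) hR (dv y) t)
  obtain ⟨a, ha⟩ := hs v (uu_eig hA T hT V (dv y) t v hv)
  -- the coefficient
  have h2 : ⟪u, dv y⟫_ℂ = conj (u y) := by
    rw [← inner_dv y u]
    exact (inner_conj_symm _ _).symm
  have h1 : ⟪u, v⟫_ℂ = conj (u y) := by
    have l1 : Tendsto (fun k => ⟪u, uu (RU T V) (dv y) t k⟫_ℂ) atTop (𝓝 ⟪u, v⟫_ℂ) :=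
      Tendsto.inner tendsto_const_nhds hv
    simp_rw [uu_inner hA T hT V hR (dv y) t u hu] at l1
    rw [tendsto_nhds_unique l1 tendsto_const_nhds, h2]
  have ha2 : a = conj (u y) := by
    rw [← h1, ha, inner_smul_right, inner_self_eq_norm_sq_to_K, hu1]
    simp
  -- the limit of the Green function
  have hev : Continuous (fun v : LL ι => (v : ι → ℂ) x) := by
    have := (continuous_apply x).comp (lp.uniformContinuous_coe (E := fun _ : ι => ℂ)
      (p := 2)).continuous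
    exact this
  have l2 : Tendsto (fun k => uu (RU T V) (dv y) t k x) atTop (𝓝 (v x)) :=
    (hev.tendsto _).comp hv
  have e1 := ((Fm_atom mp t).sub (Fm_atom mn t)).div_const 4
  have e2 : ∀ k, (-(Complex.I * (ep k : ℂ)) * Fm mp (ep k) t -
      -(Complex.I * (ep k : ℂ)) * Fm mn (ep k) t) / 4 = uu (RU T V) (dv y) t k x := by
    intro k
    have := Pool.Agent.H253.GA.pol hR x y mp mn hp hn t k
    rw [← mul_sub, ← this]
    unfold uu
    simp only [lp.coeFn_smul, Pi.smul_apply, smul_eq_mul]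
    ring
  simp_rw [e2] at e1
  have e3 := tendsto_nhds_unique e1 l2
  rw [ha, ha2] at e3
  simp only [lp.coeFn_smul, Pi.smul_apply, smul_eq_mul] at e3
  rw [← e3]
  push_cast
  ring

end Pool.Agent.H881.SH
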